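import Mathlib
import Pool.Agent.Lib.MP_ec2ab1_pr_h74.Ent

set_option autoImplicit false

/-!
# From the step inequality to the strong entropy power inequality

If `F(c+h) ≥ F(c) + a h (M + 2 a c)` for all `c, h > 0` then
`F(t) ≥ F(s) + a (t-s) M + a² (t² - s²)` for `0 < s ≤ t`.
-/

namespace Pool.Agent.MP_ec2ab1_pr.GR

open MeasureTheory ProbabilityTheory InformationTheory
open scoped NNReal ENNReal
open Pool.Agent.Lib.MP_ec2ab1_pr_h18

/-- summing the step inequality over a subdivision -/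
theorem gmon_abs (F : ℝ≥0 → ℝ) (a M : ℝ)
    (hF : ∀ c h : ℝ≥0, c ≠ 0 → h ≠ 0 → F c + a * h * (M + a * (2 * c)) ≤ F (c + h))
    {s t : ℝ≥0} (hs : s ≠ 0) (hst : s ≤ t) :
    F s + a * ((t : ℝ) - s) * M + a ^ 2 * ((t : ℝ) ^ 2 - (s : ℝ) ^ 2) ≤ F t := by
  rcases hst.eq_or_lt with rfl | hlt
  · simp
  -- subdivision with a general step
  have key : ∀ (h : ℝ≥0), h ≠ 0 → ∀ i : ℕ, F s + a * (i * h) * M +
      a ^ 2 * (2 * (i * h) * s + (h : ℝ) ^ 2 * (i * (i - 1))) ≤ F (s + i * h) := by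
    intro h hh i
    induction i with
    | zero => simp
    | succ i ih =>
      have h1 := hF (s + i * h) h (by positivity) hh
      have e : s + (i : ℝ≥0) * h + h = s + ((i + 1 : ℕ) : ℝ≥0) * h := by
        push_cast
        ring
      rw [e] at h1
      push_cast at h1 ih ⊢
      refine le_trans (le_of_eq ?_) ((add_le_add_left ih _).trans h1)
      ring
  have lim : Filter.Tendsto (fun n : ℕ => F s + a * ((t : ℝ) - s) * M +
      a ^ 2 * (2 * ((t : ℝ) - s) * s + ((t : ℝ) - s) ^ 2 * (1 - 1 / ((n : ℝ) + 1)))) Filter.atTop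
      (nhds (F s + a * ((t : ℝ) - s) * M +
      a ^ 2 * (2 * ((t : ℝ) - s) * s + ((t : ℝ) - s) ^ 2 * (1 - 0)))) := by
    have h0 : Filter.Tendsto (fun n : ℕ => 1 / ((n : ℝ) + 1)) Filter.atTop (nhds 0) :=
      tendsto_one_div_add_atTop_nhds_zero_nat
    exact ((((h0.const_sub 1).const_mul _).const_add _).const_mul _).const_add _
  have hle : ∀ n : ℕ, F s + a * ((t : ℝ) - s) * M +
      a ^ 2 * (2 * ((t : ℝ) - s) * s + ((t : ℝ) - s) ^ 2 * (1 - 1 / ((n : ℝ) + 1))) ≤ F t := by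
    intro n
    have hn : ((n + 1 : ℕ) : ℝ≥0) ≠ 0 := by positivity
    have hts : t - s ≠ 0 := (tsub_pos_of_lt hlt).ne'
    have h1 := key ((t - s) / ((n + 1 : ℕ) : ℝ≥0)) (div_ne_zero hts hn) (n + 1)
    have e : ((n + 1 : ℕ) : ℝ≥0) * ((t - s) / ((n + 1 : ℕ) : ℝ≥0)) = t - s :=
      mul_div_cancel₀ _ hn
    rw [e, add_tsub_cancel_of_le hst] at h1
    have hn' : ((n : ℝ) + 1) ≠ 0 := by positivity
    refine le_trans (le_of_eq ?_) h1
    push_cast
    rw [NNReal.coe_sub hst]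
    field_simp
  have h := le_of_tendsto' lim hle
  refine le_trans (le_of_eq ?_) h
  ring

/-- **The strong entropy power inequality at positive noise**, from the step inequality and the
entropy power inequality for `P * P` with one Gaussian summand. -/
theorem strong {P : Measure ℝ}
    (hstep : ∀ c h : ℝ≥0, c ≠ 0 → h ≠ 0 → Real.exp (4 * ent (cv P (G c))) +
      2 * Real.pi * Real.exp 1 * h * Real.exp (2 * ent (cv (cv P P) (G (2 * c)))) ≤
        Real.exp (4 * ent (cv P (G (c + h)))))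
    (hepi2 : ∀ c : ℝ≥0, c ≠ 0 → Real.exp (2 * ent (cv P P)) +
      2 * Real.pi * Real.exp 1 * (2 * c) ≤ Real.exp (2 * ent (cv (cv P P) (G (2 * c)))))
    (s t : ℝ≥0) (hs : s ≠ 0) (hst : s ≤ t) :
    Real.exp (4 * ent (cv P (G s))) +
      2 * Real.pi * Real.exp 1 * ((t : ℝ) - s) * Real.exp (2 * ent (cv P P)) +
      (2 * Real.pi * Real.exp 1) ^ 2 * ((t : ℝ) ^ 2 - (s : ℝ) ^ 2) ≤
        Real.exp (4 * ent (cv P (G t))) := by
  refine gmon_abs (fun c => Real.exp (4 * ent (cv P (G c)))) (2 * Real.pi * Real.exp 1)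
    (Real.exp (2 * ent (cv P P))) ?_ hs hst
  intro c h hc hh
  refine le_trans (add_le_add le_rfl ?_) (hstep c h hc hh)
  exact mul_le_mul_of_nonneg_left (hepi2 c hc) (by positivity)

/-- **The strong entropy power inequality down to zero noise**: `x` is any lower bound of
`exp (4 h(X + √s Z))` for all `s > 0`, e.g. `exp (4 h(X))`, or `0` if `X` has no density. -/
theorem strong_zero {P : Measure ℝ}
    (hstep : ∀ c h : ℝ≥0, c ≠ 0 → h ≠ 0 → Real.exp (4 * ent (cv P (G c))) +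
      2 * Real.pi * Real.exp 1 * h * Real.exp (2 * ent (cv (cv P P) (G (2 * c)))) ≤
        Real.exp (4 * ent (cv P (G (c + h)))))
    (hepi2 : ∀ c : ℝ≥0, c ≠ 0 → Real.exp (2 * ent (cv P P)) +
      2 * Real.pi * Real.exp 1 * (2 * c) ≤ Real.exp (2 * ent (cv (cv P P) (G (2 * c)))))
    {x : ℝ} (hx : ∀ s : ℝ≥0, s ≠ 0 → x ≤ Real.exp (4 * ent (cv P (G s)))) {t : ℝ≥0} (ht : t ≠ 0) :
    x + 2 * Real.pi * Real.exp 1 * t * Real.exp (2 * ent (cv P P)) +
      (2 * Real.pi * Real.exp 1) ^ 2 * (t : ℝ) ^ 2 ≤ Real.exp (4 * ent (cv P (G t))) := by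
  have lim : Filter.Tendsto (fun n : ℕ => x + 2 * Real.pi * Real.exp 1 *
      ((t : ℝ) - t * (1 / ((n : ℝ) + 1))) * Real.exp (2 * ent (cv P P)) +
      (2 * Real.pi * Real.exp 1) ^ 2 * ((t : ℝ) ^ 2 - (t * (1 / ((n : ℝ) + 1))) ^ 2)) Filter.atTop
      (nhds (x + 2 * Real.pi * Real.exp 1 * ((t : ℝ) - t * 0) * Real.exp (2 * ent (cv P P)) +
      (2 * Real.pi * Real.exp 1) ^ 2 * ((t : ℝ) ^ 2 - (t * 0) ^ 2))) := by
    have h0 : Filter.Tendsto (fun n : ℕ => (t : ℝ) * (1 / ((n : ℝ) + 1))) Filter.atTop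
        (nhds (t * 0)) := tendsto_one_div_add_atTop_nhds_zero_nat.const_mul _
    exact ((((h0.const_sub _).const_mul _).mul_const _).const_add _).add
      (((h0.pow 2).const_sub _).const_mul _)
  have hle : ∀ n : ℕ, x + 2 * Real.pi * Real.exp 1 *
      ((t : ℝ) - t * (1 / ((n : ℝ) + 1))) * Real.exp (2 * ent (cv P P)) +
      (2 * Real.pi * Real.exp 1) ^ 2 * ((t : ℝ) ^ 2 - (t * (1 / ((n : ℝ) + 1))) ^ 2) ≤
        Real.exp (4 * ent (cv P (G t))) := by
    intro n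
    have hn : ((n + 1 : ℕ) : ℝ≥0) ≠ 0 := by positivity
    have hs : t * (1 / ((n + 1 : ℕ) : ℝ≥0)) ≠ 0 := mul_ne_zero ht (one_div_ne_zero hn)
    have hst : t * (1 / ((n + 1 : ℕ) : ℝ≥0)) ≤ t := by
      refine mul_le_of_le_one_right zero_le (div_le_one_of_le₀ ?_ zero_le)
      exact_mod_cast Nat.succ_le_succ (Nat.zero_le n)
    have h := strong hstep hepi2 _ t hs hst
    have hx' := hx _ hs
    push_cast at h hx'
    linarith
  refine le_trans (le_of_eq ?_) (le_of_tendsto' lim hle)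
  ring

end Pool.Agent.MP_ec2ab1_pr.GR
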