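import Mathlib
import Pool.Agent.Lib.MP_ec2ab1_pr_h18.Sdpi

set_option autoImplicit false

/-!
# The strong data processing inequality for the Gaussian channel

`D(√l V + √(1-l) Z ‖ N(0,1)) ≤ l D(V ‖ N(0,1))`, for dyadic `l`, from the chain rule and the data
processing inequality (midpoint convexity in `l`).  This is the entropy power inequality with one
Gaussian summand.
-/

namespace Pool.Agent.Lib.MP_ec2ab1_pr_h63

open MeasureTheory ProbabilityTheory InformationTheory Pool.Agent.Lib.MP_ec2ab1_pr_h18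
open scoped NNReal ENNReal

/-- the orthogonal reflection `p ↦ (c x + s y, s x - c y)` -/
noncomputable def rf (c s : ℝ) (h : c ^ 2 + s ^ 2 = 1) : ℝ × ℝ ≃ᵐ ℝ × ℝ where
  toFun p := (c * p.1 + s * p.2, s * p.1 - c * p.2)
  invFun p := (c * p.1 + s * p.2, s * p.1 - c * p.2)
  left_inv p := by
    ext
    · simp only []
      linear_combination p.1 * h
    · simp only []
      linear_combination p.2 * h
  right_inv p := by
    ext
    · simp only []
      linear_combination p.1 * h
    · simp only []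
      linear_combination p.2 * h
  measurable_toFun := by
    simp only [Equiv.coe_fn_mk]
    fun_prop
  measurable_invFun := by
    simp only [Equiv.coe_fn_symm_mk]
    fun_prop

theorem rf_apply (c s : ℝ) (h : c ^ 2 + s ^ 2 = 1) (p : ℝ × ℝ) :
    rf c s h p = (c * p.1 + s * p.2, s * p.1 - c * p.2) := rfl

theorem neg_G (v : ℝ≥0) : (G v).map (fun x => -x) = G v := by
  rw [gaussianReal_map_neg, neg_zero]

theorem rf_G (c s : ℝ) (h : c ^ 2 + s ^ 2 = 1) (v : ℝ≥0) :
    ((G v).prod (G v)).map (rf c s h) = (G v).prod (G v) := by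
  have h0 : (G v)[id] = 0 := by
    simp [integral_id_gaussianReal]
  obtain ⟨θ, hc, hs⟩ : ∃ θ : ℝ, Real.cos θ = c ∧ Real.sin θ = s := by
    have h1 : ‖(⟨c, s⟩ : ℂ)‖ = 1 := by
      rw [Complex.norm_def, Complex.normSq_mk, Real.sqrt_eq_one]
      linear_combination h
    obtain ⟨θ, hθ⟩ := (Complex.norm_eq_one_iff _).1 h1
    refine ⟨θ, ?_, ?_⟩
    · have := congrArg Complex.re hθ
      rwa [Complex.exp_ofReal_mul_I_re] at this
    · have := congrArg Complex.im hθ
      rwa [Complex.exp_ofReal_mul_I_im] at this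
  have h1 := IsGaussian.map_rotation_eq_self h0 θ
  have h2 : ((G v).prod (G v)).map (Prod.map id fun x : ℝ => -x) = (G v).prod (G v) := by
    have := Measure.map_prod_map (G v) (G v) measurable_id (measurable_neg : Measurable fun x : ℝ => -x)
    rw [Measure.map_id, neg_G] at this
    exact this.symm
  conv_rhs => rw [← h2, ← h1]
  rw [Measure.map_map (measurable_id.prodMap measurable_neg) (by fun_prop)]
  congr 1
  funext p
  simp only [Function.comp, ContinuousLinearMap.rotation_apply, Prod.map, rf_apply, smul_eq_mul,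
    hc, hs, id]
  ext
  · simp
  · simp only []
    ring

/-- chain rule, first coordinate first -/
theorem kl_fst {α β : Type*} [MeasurableSpace α] [MeasurableSpace β] [StandardBorelSpace β]
    [Nonempty β] (ω : Measure (α × β)) [IsProbabilityMeasure ω] (P : Measure α)
    [IsProbabilityMeasure P] (Q : Measure β) [IsProbabilityMeasure Q] :
    klDiv ω (P.prod Q) = klDiv ω.fst P + klDiv ω (ω.fst.prod Q) := by
  have hd : ω.fst ⊗ₘ ω.condKernel = ω := ω.disintegrate ω.condKernel
  rw [← Measure.compProd_const, ← Measure.compProd_const]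
  conv_lhs => rw [← hd]
  conv_rhs =>
    enter [2, 1]
    rw [← hd]
  exact klDiv_compProd_eq_add _ _ _ _

/-- the law of `c V + s Z` -/
noncomputable def L (c s : ℝ) (ν : Measure ℝ) : Measure ℝ :=
  (ν.prod (G 1)).map fun p : ℝ × ℝ => c * p.1 + s * p.2

instance (c s : ℝ) (ν : Measure ℝ) [IsProbabilityMeasure ν] : IsProbabilityMeasure (L c s ν) :=
  Measure.isProbabilityMeasure_map (by fun_prop)

/-- the sign of the coefficient of `Z` does not matter -/
theorem L_neg (c s : ℝ) (ν : Measure ℝ) [IsProbabilityMeasure ν] : L c (-s) ν = L c s ν := by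
  have h2 : (ν.prod (G 1)).map (Prod.map id fun x : ℝ => -x) = ν.prod (G 1) := by
    have := Measure.map_prod_map ν (G 1) measurable_id (measurable_neg : Measurable fun x : ℝ => -x)
    rw [Measure.map_id, neg_G] at this
    exact this.symm
  unfold L
  conv_rhs => rw [← h2]
  rw [Measure.map_map (by fun_prop) (measurable_id.prodMap measurable_neg)]
  congr 1
  funext p
  simp only [Function.comp, Prod.map, id]
  ring

/-- the law of `a Z + b Z'` -/
theorem G_comb (a b t : ℝ) (h : a ^ 2 + b ^ 2 = t ^ 2) :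
    ((G 1).prod (G 1)).map (fun p : ℝ × ℝ => a * p.1 + b * p.2) = (G 1).map fun x => t * x := by
  have h1 : ((G 1).prod (G 1)).map (fun p : ℝ × ℝ => a * p.1 + b * p.2) =
      cv ((G 1).map fun x => a * x) ((G 1).map fun x => b * x) := by
    unfold cv
    rw [Measure.map_prod_map _ _ (by fun_prop) (by fun_prop),
      Measure.map_map (by fun_prop) (by fun_prop)]
    rfl
  rw [h1, gaussianReal_map_const_mul, gaussianReal_map_const_mul, gaussianReal_map_const_mul]
  simp only [mul_zero, mul_one]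
  rw [cv_G]
  congr 1
  ext
  push_cast
  exact h

/-- semigroup property -/
theorem L_L (a b c s t : ℝ) (h : (a * s) ^ 2 + b ^ 2 = t ^ 2) (ν : Measure ℝ)
    [IsProbabilityMeasure ν] : L a b (L c s ν) = L (a * c) t ν := by
  have h1 : (L c s ν).prod (G 1) = ((ν.prod (G 1)).prod (G 1)).map
      (Prod.map (fun p : ℝ × ℝ => c * p.1 + s * p.2) id) := by
    have := Measure.map_prod_map (ν.prod (G 1)) (G 1)
      (show Measurable fun p : ℝ × ℝ => c * p.1 + s * p.2 by fun_prop) measurable_id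
    rw [Measure.map_id] at this
    exact this
  have h2 : (ν.prod (G 1)).prod (G 1) = (ν.prod ((G 1).prod (G 1))).map
      MeasurableEquiv.prodAssoc.symm := by
    rw [← Measure.prodAssoc_prod (μ := ν) (ν := G 1) (τ := G 1),
      Measure.map_map MeasurableEquiv.prodAssoc.symm.measurable
        MeasurableEquiv.prodAssoc.measurable, MeasurableEquiv.symm_comp_self, Measure.map_id]
  have h3 : ν.prod ((G 1).map fun x => t * x) = (ν.prod ((G 1).prod (G 1))).map
      (Prod.map id fun p : ℝ × ℝ => a * s * p.1 + b * p.2) := by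
    have := Measure.map_prod_map ν ((G 1).prod (G 1)) measurable_id
      (show Measurable fun p : ℝ × ℝ => a * s * p.1 + b * p.2 by fun_prop)
    rw [Measure.map_id, G_comb (a * s) b t h] at this
    exact this
  have h4 : L (a * c) t ν = (ν.prod ((G 1).map fun x => t * x)).map
      (fun p : ℝ × ℝ => a * c * p.1 + p.2) := by
    have := Measure.map_prod_map ν (G 1) measurable_id
      (show Measurable fun x : ℝ => t * x by fun_prop)
    rw [Measure.map_id] at this
    rw [this, Measure.map_map (by fun_prop) (by fun_prop)]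
    rfl
  rw [h4, h3]
  unfold L at h1 ⊢
  rw [h1, h2, Measure.map_map (by fun_prop) (by fun_prop), Measure.map_map (by fun_prop)
    MeasurableEquiv.prodAssoc.symm.measurable, Measure.map_map (by fun_prop) (by fun_prop)]
  congr 1
  funext p
  simp only [Function.comp, Prod.map, id, MeasurableEquiv.prodAssoc, MeasurableEquiv.symm_mk,
    MeasurableEquiv.coe_mk, Equiv.prodAssoc_symm_apply]
  ring

/-- `((a, w), z) ↦ ((a, z), w)` -/
def sw : (ℝ × ℝ) × ℝ ≃ᵐ (ℝ × ℝ) × ℝ where
  toFun x := ((x.1.1, x.2), x.1.2)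
  invFun x := ((x.1.1, x.2), x.1.2)
  left_inv _ := rfl
  right_inv _ := rfl
  measurable_toFun := by
    simp only [Equiv.coe_fn_mk]
    fun_prop
  measurable_invFun := by
    simp only [Equiv.coe_fn_symm_mk]
    fun_prop

theorem assoc_symm (P Q R : Measure ℝ) [IsProbabilityMeasure P] [IsProbabilityMeasure Q]
    [IsProbabilityMeasure R] : (P.prod Q).prod R =
      (P.prod (Q.prod R)).map (MeasurableEquiv.prodAssoc (α := ℝ) (β := ℝ) (γ := ℝ)).symm := by
  rw [← Measure.prodAssoc_prod (μ := P) (ν := Q) (τ := R),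
    Measure.map_map MeasurableEquiv.prodAssoc.symm.measurable
      MeasurableEquiv.prodAssoc.measurable, MeasurableEquiv.symm_comp_self, Measure.map_id]

theorem sw_prod (P Q R : Measure ℝ) [IsProbabilityMeasure P] [IsProbabilityMeasure Q]
    [IsProbabilityMeasure R] : ((P.prod Q).prod R).map sw = (P.prod R).prod Q := by
  have h1 : P.prod (R.prod Q) = (P.prod (Q.prod R)).map (Prod.map id Prod.swap) := by
    have := Measure.map_prod_map P (Q.prod R) measurable_id measurable_swap
    rw [Measure.map_id, Measure.prod_swap] at this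
    exact this
  rw [assoc_symm P Q R, assoc_symm P R Q, h1, Measure.map_map sw.measurable
    MeasurableEquiv.prodAssoc.symm.measurable, Measure.map_map
    MeasurableEquiv.prodAssoc.symm.measurable (measurable_id.prodMap measurable_swap)]
  rfl

/-- the orthogonal map `(V, Z', Z'') ↦ (W₁, W₂, W₃)` -/
noncomputable def mm (c s p q : ℝ) (h1 : c ^ 2 + s ^ 2 = 1) (h2 : p ^ 2 + q ^ 2 = 1) :
    (ℝ × ℝ) × ℝ ≃ᵐ (ℝ × ℝ) × ℝ :=
  (((rf c s h1).prodCongr (MeasurableEquiv.refl ℝ)).trans sw).trans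
    ((rf p q h2).prodCongr (MeasurableEquiv.refl ℝ))

theorem mm_apply (c s p q : ℝ) (h1 : c ^ 2 + s ^ 2 = 1) (h2 : p ^ 2 + q ^ 2 = 1)
    (x : (ℝ × ℝ) × ℝ) : mm c s p q h1 h2 x =
      ((p * (c * x.1.1 + s * x.1.2) + q * x.2, q * (c * x.1.1 + s * x.1.2) - p * x.2),
        s * x.1.1 - c * x.1.2) := rfl

theorem rf_prod (c s : ℝ) (h : c ^ 2 + s ^ 2 = 1) (R : Measure ℝ) [IsProbabilityMeasure R] :
    (((G 1).prod (G 1)).prod R).map ((rf c s h).prodCongr (MeasurableEquiv.refl ℝ)) =
      ((G 1).prod (G 1)).prod R := by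
  have := Measure.map_prod_map ((G 1).prod (G 1)) R (rf c s h).measurable measurable_id
  rw [Measure.map_id, rf_G] at this
  exact this.symm

theorem mm_G (c s p q : ℝ) (h1 : c ^ 2 + s ^ 2 = 1) (h2 : p ^ 2 + q ^ 2 = 1) :
    (((G 1).prod (G 1)).prod (G 1)).map (mm c s p q h1 h2) = ((G 1).prod (G 1)).prod (G 1) := by
  unfold mm
  rw [MeasurableEquiv.coe_trans, MeasurableEquiv.coe_trans,
    ← Measure.map_map ((rf p q h2).prodCongr (MeasurableEquiv.refl ℝ)).measurable
      (sw.measurable.comp ((rf c s h1).prodCongr (MeasurableEquiv.refl ℝ)).measurable),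
    ← Measure.map_map sw.measurable ((rf c s h1).prodCongr (MeasurableEquiv.refl ℝ)).measurable,
    rf_prod, sw_prod, rf_prod]

/-- The divergences of the three coordinates: midpoint convexity. -/
theorem three (c s p q : ℝ) (h1 : c ^ 2 + s ^ 2 = 1) (h2 : p ^ 2 + q ^ 2 = 1) (h3 : p * c = s)
    (hc : c ≠ 0) (ν : Measure ℝ) [IsProbabilityMeasure ν] :
    2 * klDiv (L c s ν) (G 1) ≤ klDiv ν (G 1) + klDiv (L q p (L c s ν)) (G 1) := by
  set g : Measure ℝ := G 1 with hg
  set μ : Measure ((ℝ × ℝ) × ℝ) := (ν.prod g).prod g with hμ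
  set M := mm c s p q h1 h2 with hM
  set ω : Measure ((ℝ × ℝ) × ℝ) := μ.map M with hω
  have iω : IsProbabilityMeasure ω := Measure.isProbabilityMeasure_map M.measurable.aemeasurable
  -- the whole vector
  have k1 : klDiv ω ((g.prod g).prod g) = klDiv ν g := by
    rw [← mm_G c s p q h1 h2, hω, kl_map_equiv, hμ, kl_prod_right, kl_prod_right]
  -- the first two coordinates
  have f1 : ω.fst = ((L c s ν).prod g).map (rf p q h2) := by
    have := Measure.map_prod_map (ν.prod g) g
      (show Measurable fun x : ℝ × ℝ => c * x.1 + s * x.2 by fun_prop) measurable_id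
    rw [Measure.map_id] at this
    unfold L
    rw [← hg, this, Measure.map_map (rf p q h2).measurable (by fun_prop), Measure.fst, hω,
      Measure.map_map measurable_fst M.measurable]
    rfl
  have k2 : klDiv ω.fst (g.prod g) = klDiv (L c s ν) g := by
    rw [f1, ← rf_G p q h2 1, kl_map_equiv, kl_prod_right]
  have c1 := kl_fst ω (g.prod g) g
  -- the last two coordinates
  set pr : (ℝ × ℝ) × ℝ → ℝ × ℝ := fun x => (x.1.2, x.2) with hpr
  have mpr : Measurable pr := by fun_prop
  set ω' : Measure (ℝ × ℝ) := ω.map pr with hω'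
  have iω' : IsProbabilityMeasure ω' := Measure.isProbabilityMeasure_map mpr.aemeasurable
  have hcc : p ^ 2 * s ^ 2 + q ^ 2 = c ^ 2 := by
    have : s ^ 2 = p ^ 2 * c ^ 2 := by rw [← h3]; ring
    nlinarith
  obtain ⟨k, hk⟩ : ∃ k : ℝ, c * k = 1 := ⟨c⁻¹, mul_inv_cancel₀ hc⟩
  have hab : (-(p * s * k)) ^ 2 + (-(q * k)) ^ 2 = 1 := by
    linear_combination k ^ 2 * hcc + (c * k + 1) * hk
  set α : ℝ := -(p * s * k) with hα
  set β : ℝ := -(q * k) with hβ
  set Q : (ℝ × ℝ) × ℝ → (ℝ × ℝ) × ℝ := fun x =>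
    ((x.1.1, α * x.1.2 + β * x.2), β * x.1.2 - α * x.2) with hQ
  have mQ : Measurable Q := by fun_prop
  have pQ : μ.map Q = μ := by
    have h := Measure.map_prod_map ν (g.prod g) measurable_id (rf α β hab).measurable
    rw [Measure.map_id, rf_G] at h
    rw [hμ, assoc_symm, Measure.map_map mQ MeasurableEquiv.prodAssoc.symm.measurable]
    conv_rhs => rw [h]
    rw [Measure.map_map MeasurableEquiv.prodAssoc.symm.measurable
      (measurable_id.prodMap (rf α β hab).measurable)]
    rfl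
  have f2 : ω' = ω.fst.map Prod.swap := by
    rw [hω', hω, Measure.map_map mpr M.measurable, Measure.fst, Measure.map_map measurable_swap
      measurable_fst, Measure.map_map (measurable_swap.comp measurable_fst) M.measurable]
    conv_rhs => rw [← pQ]
    rw [Measure.map_map ((measurable_swap.comp measurable_fst).comp M.measurable) mQ]
    congr 1
    funext x
    simp only [Function.comp, hM, mm_apply, hQ, hpr, Prod.swap_prod_mk, hα, hβ]
    ext
    · simp only []
      linear_combination x.1.2 * (p * q * k * h1 - p * q * c * hk - q * h3) +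
        x.2 * (s * k * h2 - k * h3 + p * hk)
    · simp only []
      linear_combination -x.1.1 * h3 + x.1.2 * (k * hcc + c * hk)
  have k3 : klDiv ω' (g.prod g) = klDiv ω.fst (g.prod g) := by
    have h := kl_map_equiv ω.fst (g.prod g) (MeasurableEquiv.prodComm (α := ℝ) (β := ℝ))
    have h' : (g.prod g).map (MeasurableEquiv.prodComm (α := ℝ) (β := ℝ)) = g.prod g :=
      Measure.prod_swap
    rw [h'] at h
    rw [f2]
    exact h
  have f3 : ω'.fst = L q p (L c s ν) := by
    rw [f2, Measure.fst_map_swap, f1, Measure.snd, Measure.map_map measurable_snd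
      (rf p q h2).measurable, ← L_neg q p (L c s ν), L.eq_1 q (-p) (L c s ν)]
    congr 1
    funext x
    simp only [Function.comp, rf_apply]
    ring
  have c2 := kl_fst ω' g g
  -- data processing
  have d1 : klDiv ω' (ω'.fst.prod g) ≤ klDiv ω (ω.fst.prod g) := by
    have h := klDiv_map_le ω (ω.fst.prod g) mpr
    have h' : (ω.fst.prod g).map pr = ω'.fst.prod g := by
      have h'' := Measure.map_prod_map ω.fst g (measurable_snd (α := ℝ) (β := ℝ)) measurable_id
      rw [Measure.map_id] at h''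
      rw [f2, Measure.fst_map_swap, Measure.snd, h'']
      rfl
    rwa [h'] at h
  rw [k1, k2] at c1
  rw [k3, k2] at c2
  calc 2 * klDiv (L c s ν) g = klDiv (L c s ν) g + klDiv (L c s ν) g := two_mul _
    _ = klDiv (L c s ν) g + (klDiv ω'.fst g + klDiv ω' (ω'.fst.prod g)) := by rw [← c2]
    _ ≤ klDiv (L c s ν) g + (klDiv ω'.fst g + klDiv ω (ω.fst.prod g)) := by gcongr
    _ = (klDiv (L c s ν) g + klDiv ω (ω.fst.prod g)) + klDiv ω'.fst g := by ring
    _ = klDiv ν g + klDiv (L q p (L c s ν)) g := by rw [← c1, f3]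

/-- the divergence of `√l V + √(1-l) Z` -/
noncomputable def phi (ν : Measure ℝ) (l : ℝ) : ℝ≥0∞ :=
  klDiv (L (Real.sqrt l) (Real.sqrt (1 - l)) ν) (G 1)

theorem phi_zero (ν : Measure ℝ) [IsProbabilityMeasure ν] : phi ν 0 = 0 := by
  have h : L (Real.sqrt 0) (Real.sqrt (1 - 0)) ν = G 1 := by
    unfold L
    simp only [Real.sqrt_zero, sub_zero, Real.sqrt_one, zero_mul, one_mul, zero_add]
    rw [Measure.map_snd_prod]
    simp
  unfold phi
  rw [h, klDiv_self]

theorem phi_one (ν : Measure ℝ) [IsProbabilityMeasure ν] : phi ν 1 = klDiv ν (G 1) := by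
  have h : L (Real.sqrt 1) (Real.sqrt (1 - 1)) ν = ν := by
    unfold L
    simp only [Real.sqrt_one, sub_self, Real.sqrt_zero, zero_mul, one_mul, add_zero]
    rw [Measure.map_fst_prod]
    simp
  unfold phi
  rw [h]

/-- midpoint convexity -/
theorem phi_mid (ν : Measure ℝ) [IsProbabilityMeasure ν] {x y : ℝ} (hx : 0 ≤ x) (hxy : x ≤ y)
    (hy : y ≤ 1) : 2 * phi ν ((x + y) / 2) ≤ phi ν x + phi ν y := by
  rcases (hx.trans hxy).eq_or_lt with hy0 | hy0
  · have hx0 : x = 0 := le_antisymm (hxy.trans hy0.symm.le) hx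
    rw [hx0, ← hy0]
    norm_num
    rw [two_mul]
  set r : ℝ := x / y with hr
  have hry : r * y = x := div_mul_cancel₀ x hy0.ne'
  have hr0 : 0 ≤ r := div_nonneg hx hy0.le
  have hr1 : r ≤ 1 := (div_le_one hy0).2 hxy
  have hc2 : 0 < (1 + r) / 2 := by linarith
  set c : ℝ := Real.sqrt ((1 + r) / 2) with hc
  set s : ℝ := Real.sqrt ((1 - r) / 2) with hs
  have cc : c ^ 2 = (1 + r) / 2 := Real.sq_sqrt hc2.le
  have ss : s ^ 2 = (1 - r) / 2 := Real.sq_sqrt (by linarith)
  have hcpos : 0 < c := Real.sqrt_pos.2 hc2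
  set p : ℝ := s / c with hp
  set q : ℝ := Real.sqrt r / c with hq
  have h3 : p * c = s := div_mul_cancel₀ s hcpos.ne'
  have h4 : q * c = Real.sqrt r := div_mul_cancel₀ _ hcpos.ne'
  have rr : Real.sqrt r ^ 2 = r := Real.sq_sqrt hr0
  have h1 : c ^ 2 + s ^ 2 = 1 := by rw [cc, ss]; ring
  have h2 : p ^ 2 + q ^ 2 = 1 := by
    have h5 : (p ^ 2 + q ^ 2) * c ^ 2 = c ^ 2 := by
      calc (p ^ 2 + q ^ 2) * c ^ 2 = (p * c) ^ 2 + (q * c) ^ 2 := by ring
        _ = c ^ 2 := by rw [h3, h4, rr, ss, cc]; ring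
    have h6 : c ^ 2 ≠ 0 := by positivity
    exact mul_right_cancel₀ h6 (h5.trans (one_mul _).symm)
  have yy : Real.sqrt y ^ 2 = y := Real.sq_sqrt hy0.le
  have yy' : Real.sqrt (1 - y) ^ 2 = 1 - y := Real.sq_sqrt (by linarith)
  have h := three c s p q h1 h2 h3 hcpos.ne' (L (Real.sqrt y) (Real.sqrt (1 - y)) ν)
  have hm : (x + y) / 2 = c ^ 2 * y := by
    rw [cc, ← hry]
    ring
  have e1 : c * Real.sqrt y = Real.sqrt ((x + y) / 2) := by
    rw [hm, Real.sqrt_mul (by positivity), Real.sqrt_sq hcpos.le]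
  have mm' : Real.sqrt (1 - (x + y) / 2) ^ 2 = 1 - (x + y) / 2 := Real.sq_sqrt (by linarith)
  have e2 : L c s (L (Real.sqrt y) (Real.sqrt (1 - y)) ν) =
      L (Real.sqrt ((x + y) / 2)) (Real.sqrt (1 - (x + y) / 2)) ν := by
    rw [L_L c s (Real.sqrt y) (Real.sqrt (1 - y)) (Real.sqrt (1 - (x + y) / 2)) ?_, e1]
    rw [mul_pow, yy', mm', hm, ss, cc]
    ring
  have e3 : q * Real.sqrt ((x + y) / 2) = Real.sqrt x := by
    rw [← e1, ← mul_assoc, h4, ← Real.sqrt_mul hr0, hry]
  have xx : Real.sqrt (1 - x) ^ 2 = 1 - x := Real.sq_sqrt (by linarith)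
  have e4 : L q p (L (Real.sqrt ((x + y) / 2)) (Real.sqrt (1 - (x + y) / 2)) ν) =
      L (Real.sqrt x) (Real.sqrt (1 - x)) ν := by
    rw [L_L q p (Real.sqrt ((x + y) / 2)) (Real.sqrt (1 - (x + y) / 2)) (Real.sqrt (1 - x)) ?_, e3]
    rw [mul_pow, mm', xx]
    have h7 : q ^ 2 * c ^ 2 = r := by rw [← mul_pow, h4, rr]
    calc q ^ 2 * (1 - (x + y) / 2) + p ^ 2 = (p ^ 2 + q ^ 2) - q ^ 2 * c ^ 2 * y := by
          rw [hm]; ring
      _ = 1 - x := by rw [h2, h7, hry]
  rw [e2, e4] at h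
  unfold phi
  rw [add_comm (klDiv (L (Real.sqrt x) (Real.sqrt (1 - x)) ν) (G 1))]
  exact h

/-- **The strong data processing inequality of the Gaussian channel**, integer form. -/
theorem phi_dyadic (ν : Measure ℝ) [IsProbabilityMeasure ν] (n : ℕ) : ∀ k : ℕ, k ≤ 2 ^ n →
    2 ^ n * phi ν (k / 2 ^ n) ≤ k * klDiv ν (G 1) := by
  induction n with
  | zero =>
    intro k hk
    interval_cases k
    · simp [phi_zero]
    · simp [phi_one]
  | succ n ih =>
    intro k hk
    have h2 : (0 : ℝ) < 2 ^ n := by positivity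
    rcases Nat.even_or_odd' k with ⟨j, rfl | rfl⟩
    · have hj : j ≤ 2 ^ n := by rw [pow_succ] at hk; omega
      have e : ((2 * j : ℕ) : ℝ) / 2 ^ (n + 1) = j / 2 ^ n := by
        push_cast
        rw [pow_succ]
        field_simp
      rw [e]
      calc 2 ^ (n + 1) * phi ν (j / 2 ^ n) = 2 * (2 ^ n * phi ν (j / 2 ^ n)) := by ring
        _ ≤ 2 * (j * klDiv ν (G 1)) := mul_le_mul' le_rfl (ih j hj)
        _ = ((2 * j : ℕ) : ℝ≥0∞) * klDiv ν (G 1) := by push_cast; ring
    · have hj : j + 1 ≤ 2 ^ n := by rw [pow_succ] at hk; omega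
      have e : ((2 * j + 1 : ℕ) : ℝ) / 2 ^ (n + 1) =
          ((j : ℝ) / 2 ^ n + ((j + 1 : ℕ) : ℝ) / 2 ^ n) / 2 := by
        push_cast
        rw [pow_succ]
        field_simp
        ring
      have hm := phi_mid ν (x := (j : ℝ) / 2 ^ n) (y := ((j + 1 : ℕ) : ℝ) / 2 ^ n) (by positivity)
        (by gcongr; simp) (by rw [div_le_one h2]; exact_mod_cast hj)
      rw [e]
      calc 2 ^ (n + 1) * phi ν (((j : ℝ) / 2 ^ n + ((j + 1 : ℕ) : ℝ) / 2 ^ n) / 2)
          = 2 ^ n * (2 * phi ν (((j : ℝ) / 2 ^ n + ((j + 1 : ℕ) : ℝ) / 2 ^ n) / 2)) := by ring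
        _ ≤ 2 ^ n * (phi ν ((j : ℝ) / 2 ^ n) + phi ν (((j + 1 : ℕ) : ℝ) / 2 ^ n)) :=
            mul_le_mul' le_rfl hm
        _ = 2 ^ n * phi ν ((j : ℝ) / 2 ^ n) + 2 ^ n * phi ν (((j + 1 : ℕ) : ℝ) / 2 ^ n) := by ring
        _ ≤ j * klDiv ν (G 1) + (j + 1 : ℕ) * klDiv ν (G 1) :=
            add_le_add (ih j (by omega)) (ih (j + 1) hj)
        _ = ((2 * j + 1 : ℕ) : ℝ≥0∞) * klDiv ν (G 1) := by push_cast; ring

/-- **The strong data processing inequality of the Gaussian channel** (the entropy power inequality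
with one Gaussian summand): `D(√l V + √(1-l) Z ‖ N(0,1)) ≤ l D(V ‖ N(0,1))` for dyadic `l`. -/
theorem sdpi (ν : Measure ℝ) [IsProbabilityMeasure ν] (k n : ℕ) (hk : k ≤ 2 ^ n) :
    klDiv ((ν.prod (G 1)).map fun p : ℝ × ℝ =>
      Real.sqrt (k / 2 ^ n) * p.1 + Real.sqrt (1 - k / 2 ^ n) * p.2) (G 1) ≤
      ENNReal.ofReal (k / 2 ^ n) * klDiv ν (G 1) := by
  have h := phi_dyadic ν n k hk
  have h0 : (2 : ℝ≥0∞) ^ n ≠ 0 := by positivity
  have ht : (2 : ℝ≥0∞) ^ n ≠ ∞ := by finiteness
  have e : ENNReal.ofReal ((k : ℝ) / 2 ^ n) = (k : ℝ≥0∞) / 2 ^ n := by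
    rw [ENNReal.ofReal_div_of_pos (by positivity), ENNReal.ofReal_natCast, ENNReal.ofReal_pow (by norm_num)]
    norm_num
  rw [e]
  change phi ν (k / 2 ^ n) ≤ _
  rw [← ENNReal.mul_le_mul_iff_right h0 ht]
  refine h.trans (le_of_eq ?_)
  rw [← mul_assoc, ENNReal.mul_div_cancel h0 ht]

end Pool.Agent.Lib.MP_ec2ab1_pr_h63
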