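import Mathlib
import Pool.Agent.Lib.MP_ec2ab1_pr_h63.Sdpi

set_option autoImplicit false

/-!
# Midpoint convexity of the divergence along the Gaussian channel, with side information

For a law `ω` of `(V, S)` on `ℝ × E` and a probability measure `ρ` on `E` the function
`φ(l) = D((√l V + √(1-l) Z, S) ‖ N(0,1) ⊗ ρ)` is midpoint convex on `[0, 1]`.
-/

namespace Pool.Agent.Lib.MP_ec2ab1_pr_h63

open MeasureTheory ProbabilityTheory InformationTheory Pool.Agent.Lib.MP_ec2ab1_pr_h18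
open scoped NNReal ENNReal

section perm

variable {α β δ : Type*} [MeasurableSpace α] [MeasurableSpace β] [MeasurableSpace δ]

/-- `((a, w), z) ↦ ((a, z), w)` -/
def swg (α β δ : Type*) [MeasurableSpace α] [MeasurableSpace β] [MeasurableSpace δ] :
    (α × β) × δ ≃ᵐ (α × δ) × β where
  toFun x := ((x.1.1, x.2), x.1.2)
  invFun x := ((x.1.1, x.2), x.1.2)
  left_inv _ := rfl
  right_inv _ := rfl
  measurable_toFun := by
    simp only [Equiv.coe_fn_mk]
    fun_prop
  measurable_invFun := by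
    simp only [Equiv.coe_fn_symm_mk]
    fun_prop

theorem assocg_symm (P : Measure α) (Q : Measure β) (R : Measure δ) [IsProbabilityMeasure P]
    [IsProbabilityMeasure Q] [IsProbabilityMeasure R] : (P.prod Q).prod R =
      (P.prod (Q.prod R)).map (MeasurableEquiv.prodAssoc (α := α) (β := β) (γ := δ)).symm := by
  rw [← Measure.prodAssoc_prod (μ := P) (ν := Q) (τ := R),
    Measure.map_map MeasurableEquiv.prodAssoc.symm.measurable
      MeasurableEquiv.prodAssoc.measurable, MeasurableEquiv.symm_comp_self, Measure.map_id]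

theorem swg_prod (P : Measure α) (Q : Measure β) (R : Measure δ) [IsProbabilityMeasure P]
    [IsProbabilityMeasure Q] [IsProbabilityMeasure R] :
    ((P.prod Q).prod R).map (swg α β δ) = (P.prod R).prod Q := by
  have h1 : P.prod (R.prod Q) = (P.prod (Q.prod R)).map (Prod.map id Prod.swap) := by
    have := Measure.map_prod_map P (Q.prod R) measurable_id measurable_swap
    rw [Measure.map_id, Measure.prod_swap] at this
    exact this
  rw [assocg_symm P Q R, assocg_symm P R Q, h1, Measure.map_map (swg α β δ).measurable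
    MeasurableEquiv.prodAssoc.symm.measurable, Measure.map_map
    MeasurableEquiv.prodAssoc.symm.measurable (measurable_id.prodMap measurable_swap)]
  rfl

theorem congr_prod {γ : Type*} [MeasurableSpace γ] (e : α ≃ᵐ β) (P : Measure α) (Q : Measure γ)
    [IsProbabilityMeasure P] [IsProbabilityMeasure Q] :
    (P.prod Q).map (e.prodCongr (MeasurableEquiv.refl γ)) = (P.map e).prod Q := by
  have := Measure.map_prod_map P Q e.measurable measurable_id
  rw [Measure.map_id] at this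
  exact this.symm

end perm

variable {E : Type*} [MeasurableSpace E]

/-- `((a, e), z) ↦ (c a + s z, (s a - c z, e))` -/
noncomputable def rS (E : Type*) [MeasurableSpace E] (c s : ℝ) (h : c ^ 2 + s ^ 2 = 1) :
    (ℝ × E) × ℝ ≃ᵐ ℝ × (ℝ × E) :=
  ((swg ℝ E ℝ).trans ((rf c s h).prodCongr (MeasurableEquiv.refl E))).trans
    MeasurableEquiv.prodAssoc

theorem rS_apply (c s : ℝ) (h : c ^ 2 + s ^ 2 = 1) (x : (ℝ × E) × ℝ) :
    rS E c s h x = (c * x.1.1 + s * x.2, (s * x.1.1 - c * x.2, x.1.2)) := rfl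

theorem rS_G (c s : ℝ) (h : c ^ 2 + s ^ 2 = 1) (ρ : Measure E) [IsProbabilityMeasure ρ] :
    (((G 1).prod ρ).prod (G 1)).map (rS E c s h) = (G 1).prod ((G 1).prod ρ) := by
  unfold rS
  rw [MeasurableEquiv.coe_trans, MeasurableEquiv.coe_trans,
    ← Measure.map_map MeasurableEquiv.prodAssoc.measurable
      (((rf c s h).prodCongr (MeasurableEquiv.refl E)).measurable.comp (swg ℝ E ℝ).measurable),
    ← Measure.map_map ((rf c s h).prodCongr (MeasurableEquiv.refl E)).measurable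
      (swg ℝ E ℝ).measurable, swg_prod, congr_prod, rf_G, Measure.prodAssoc_prod]

/-- `((a, e), z) ↦ ((c a + s z, e), s a - c z)` -/
noncomputable def rT (E : Type*) [MeasurableSpace E] (c s : ℝ) (h : c ^ 2 + s ^ 2 = 1) :
    (ℝ × E) × ℝ ≃ᵐ (ℝ × E) × ℝ :=
  ((swg ℝ E ℝ).trans ((rf c s h).prodCongr (MeasurableEquiv.refl E))).trans (swg ℝ ℝ E)

theorem rT_apply (c s : ℝ) (h : c ^ 2 + s ^ 2 = 1) (x : (ℝ × E) × ℝ) :
    rT E c s h x = ((c * x.1.1 + s * x.2, x.1.2), s * x.1.1 - c * x.2) := rfl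

theorem rT_G (c s : ℝ) (h : c ^ 2 + s ^ 2 = 1) (ρ : Measure E) [IsProbabilityMeasure ρ] :
    (((G 1).prod ρ).prod (G 1)).map (rT E c s h) = ((G 1).prod ρ).prod (G 1) := by
  unfold rT
  rw [MeasurableEquiv.coe_trans, MeasurableEquiv.coe_trans,
    ← Measure.map_map (swg ℝ ℝ E).measurable
      (((rf c s h).prodCongr (MeasurableEquiv.refl E)).measurable.comp (swg ℝ E ℝ).measurable),
    ← Measure.map_map ((rf c s h).prodCongr (MeasurableEquiv.refl E)).measurable
      (swg ℝ E ℝ).measurable, swg_prod, congr_prod, rf_G, swg_prod]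

/-- the orthogonal map `(((V, S), Z'), Z'') ↦ ((W₁, (W₂, S)), W₃)` -/
noncomputable def mS (E : Type*) [MeasurableSpace E] (c s p q : ℝ) (h1 : c ^ 2 + s ^ 2 = 1)
    (h2 : p ^ 2 + q ^ 2 = 1) : ((ℝ × E) × ℝ) × ℝ ≃ᵐ (ℝ × (ℝ × E)) × ℝ :=
  (((rT E c s h1).prodCongr (MeasurableEquiv.refl ℝ)).trans (swg (ℝ × E) ℝ ℝ)).trans
    ((rS E p q h2).prodCongr (MeasurableEquiv.refl ℝ))

theorem mS_apply (c s p q : ℝ) (h1 : c ^ 2 + s ^ 2 = 1) (h2 : p ^ 2 + q ^ 2 = 1)
    (x : ((ℝ × E) × ℝ) × ℝ) : mS E c s p q h1 h2 x =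
      ((p * (c * x.1.1.1 + s * x.1.2) + q * x.2,
        (q * (c * x.1.1.1 + s * x.1.2) - p * x.2, x.1.1.2)), s * x.1.1.1 - c * x.1.2) := rfl

theorem mS_G (c s p q : ℝ) (h1 : c ^ 2 + s ^ 2 = 1) (h2 : p ^ 2 + q ^ 2 = 1) (ρ : Measure E)
    [IsProbabilityMeasure ρ] :
    ((((G 1).prod ρ).prod (G 1)).prod (G 1)).map (mS E c s p q h1 h2) =
      ((G 1).prod ((G 1).prod ρ)).prod (G 1) := by
  unfold mS
  rw [MeasurableEquiv.coe_trans, MeasurableEquiv.coe_trans,
    ← Measure.map_map ((rS E p q h2).prodCongr (MeasurableEquiv.refl ℝ)).measurable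
      ((swg (ℝ × E) ℝ ℝ).measurable.comp
        ((rT E c s h1).prodCongr (MeasurableEquiv.refl ℝ)).measurable),
    ← Measure.map_map (swg (ℝ × E) ℝ ℝ).measurable
      ((rT E c s h1).prodCongr (MeasurableEquiv.refl ℝ)).measurable,
    congr_prod, rT_G, swg_prod, congr_prod, rS_G]

/-- the law of `(c V + s Z, S)` -/
noncomputable def LS (c s : ℝ) (ω : Measure (ℝ × E)) : Measure (ℝ × E) :=
  (ω.prod (G 1)).map fun p : (ℝ × E) × ℝ => (c * p.1.1 + s * p.2, p.1.2)

instance (c s : ℝ) (ω : Measure (ℝ × E)) [IsProbabilityMeasure ω] :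
    IsProbabilityMeasure (LS c s ω) :=
  Measure.isProbabilityMeasure_map (by fun_prop)

/-- the sign of the coefficient of `Z` does not matter -/
theorem LS_neg (c s : ℝ) (ω : Measure (ℝ × E)) [IsProbabilityMeasure ω] :
    LS c (-s) ω = LS c s ω := by
  have h2 : (ω.prod (G 1)).map (Prod.map id fun x : ℝ => -x) = ω.prod (G 1) := by
    have := Measure.map_prod_map ω (G 1) measurable_id (measurable_neg : Measurable fun x : ℝ => -x)
    rw [Measure.map_id, neg_G] at this
    exact this.symm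
  unfold LS
  conv_rhs => rw [← h2]
  rw [Measure.map_map (by fun_prop) (measurable_id.prodMap measurable_neg)]
  congr 1
  funext p
  simp only [Function.comp, Prod.map, id]
  ext
  · simp only []
    ring
  · rfl

/-- semigroup property -/
theorem LS_LS (a b c s t : ℝ) (h : (a * s) ^ 2 + b ^ 2 = t ^ 2) (ω : Measure (ℝ × E))
    [IsProbabilityMeasure ω] : LS a b (LS c s ω) = LS (a * c) t ω := by
  have h1 : (LS c s ω).prod (G 1) = ((ω.prod (G 1)).prod (G 1)).map
      (Prod.map (fun p : (ℝ × E) × ℝ => (c * p.1.1 + s * p.2, p.1.2)) id) := by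
    have := Measure.map_prod_map (ω.prod (G 1)) (G 1)
      (show Measurable fun p : (ℝ × E) × ℝ => (c * p.1.1 + s * p.2, p.1.2) by fun_prop)
      measurable_id
    rw [Measure.map_id] at this
    exact this
  have h2 := assocg_symm ω (G 1) (G 1)
  have h3 : ω.prod ((G 1).map fun x => t * x) = (ω.prod ((G 1).prod (G 1))).map
      (Prod.map id fun p : ℝ × ℝ => a * s * p.1 + b * p.2) := by
    have := Measure.map_prod_map ω ((G 1).prod (G 1)) measurable_id
      (show Measurable fun p : ℝ × ℝ => a * s * p.1 + b * p.2 by fun_prop)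
    rw [Measure.map_id, G_comb (a * s) b t h] at this
    exact this
  have h4 : LS (a * c) t ω = (ω.prod ((G 1).map fun x => t * x)).map
      (fun p : (ℝ × E) × ℝ => (a * c * p.1.1 + p.2, p.1.2)) := by
    have := Measure.map_prod_map ω (G 1) measurable_id
      (show Measurable fun x : ℝ => t * x by fun_prop)
    rw [Measure.map_id] at this
    rw [this, Measure.map_map (by fun_prop) (by fun_prop)]
    rfl
  rw [h4, h3]
  unfold LS at h1 ⊢
  rw [h1, h2, Measure.map_map (by fun_prop) (by fun_prop), Measure.map_map (by fun_prop)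
    MeasurableEquiv.prodAssoc.symm.measurable, Measure.map_map (by fun_prop) (by fun_prop)]
  congr 1
  funext p
  simp only [Function.comp, Prod.map, id, MeasurableEquiv.prodAssoc, MeasurableEquiv.symm_mk,
    MeasurableEquiv.coe_mk, Equiv.prodAssoc_symm_apply]
  ext
  · simp only []
    ring
  · rfl

/-- The divergences of the three coordinates: midpoint convexity, with side information. -/
theorem threeS (c s p q : ℝ) (h1 : c ^ 2 + s ^ 2 = 1) (h2 : p ^ 2 + q ^ 2 = 1) (h3 : p * c = s)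
    (hc : c ≠ 0) (ν : Measure (ℝ × E)) [IsProbabilityMeasure ν] (ρ : Measure E)
    [IsProbabilityMeasure ρ] :
    2 * klDiv (LS c s ν) ((G 1).prod ρ) ≤
      klDiv ν ((G 1).prod ρ) + klDiv (LS q p (LS c s ν)) ((G 1).prod ρ) := by
  set g : Measure ℝ := G 1 with hg
  set gr : Measure (ℝ × E) := g.prod ρ with hgr
  set μ : Measure (((ℝ × E) × ℝ) × ℝ) := (ν.prod g).prod g with hμ
  set M := mS E c s p q h1 h2 with hM
  set ω : Measure ((ℝ × (ℝ × E)) × ℝ) := μ.map M with hω
  have iω : IsProbabilityMeasure ω := Measure.isProbabilityMeasure_map M.measurable.aemeasurable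
  -- the whole vector
  have k1 : klDiv ω ((g.prod gr).prod g) = klDiv ν gr := by
    rw [hgr, ← mS_G c s p q h1 h2 ρ, hω, kl_map_equiv, hμ, kl_prod_right, kl_prod_right]
  -- the first two coordinates
  have f1 : ω.fst = ((LS c s ν).prod g).map (rS E p q h2) := by
    have := Measure.map_prod_map (ν.prod g) g
      (show Measurable fun x : (ℝ × E) × ℝ => (c * x.1.1 + s * x.2, x.1.2) by fun_prop)
      measurable_id
    rw [Measure.map_id] at this
    unfold LS
    rw [← hg, this, Measure.map_map (rS E p q h2).measurable (by fun_prop), Measure.fst, hω,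
      Measure.map_map measurable_fst M.measurable]
    rfl
  have k2 : klDiv ω.fst (g.prod gr) = klDiv (LS c s ν) gr := by
    rw [f1, hgr, ← rS_G p q h2 ρ, kl_map_equiv, kl_prod_right]
  have c1 := kl_fst ω (g.prod gr) g
  -- the last two coordinates
  set pr : (ℝ × (ℝ × E)) × ℝ → (ℝ × E) × ℝ := fun x => (x.1.2, x.2) with hpr
  have mpr : Measurable pr := by fun_prop
  set ω' : Measure ((ℝ × E) × ℝ) := ω.map pr with hω'
  have iω' : IsProbabilityMeasure ω' := Measure.isProbabilityMeasure_map mpr.aemeasurable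
  have hcc : p ^ 2 * s ^ 2 + q ^ 2 = c ^ 2 := by
    have : s ^ 2 = p ^ 2 * c ^ 2 := by rw [← h3]; ring
    nlinarith
  obtain ⟨k, hk⟩ : ∃ k : ℝ, c * k = 1 := ⟨c⁻¹, mul_inv_cancel₀ hc⟩
  have hab : (-(p * s * k)) ^ 2 + (-(q * k)) ^ 2 = 1 := by
    linear_combination k ^ 2 * hcc + (c * k + 1) * hk
  set α : ℝ := -(p * s * k) with hα
  set β : ℝ := -(q * k) with hβ
  set Q : ((ℝ × E) × ℝ) × ℝ → ((ℝ × E) × ℝ) × ℝ := fun x =>
    ((x.1.1, α * x.1.2 + β * x.2), β * x.1.2 - α * x.2) with hQ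
  have mQ : Measurable Q := by fun_prop
  have pQ : μ.map Q = μ := by
    have h := Measure.map_prod_map ν (g.prod g) measurable_id (rf α β hab).measurable
    rw [Measure.map_id, rf_G] at h
    rw [hμ, assocg_symm, Measure.map_map mQ MeasurableEquiv.prodAssoc.symm.measurable]
    conv_rhs => rw [h]
    rw [Measure.map_map MeasurableEquiv.prodAssoc.symm.measurable
      (measurable_id.prodMap (rf α β hab).measurable)]
    rfl
  have f2 : ω' = ω.fst.map Prod.swap := by
    rw [hω', hω, Measure.map_map mpr M.measurable, Measure.fst, Measure.map_map measurable_swap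
      measurable_fst, Measure.map_map (measurable_swap.comp measurable_fst) M.measurable]
    conv_rhs => rw [← pQ]
    rw [Measure.map_map ((measurable_swap.comp measurable_fst).comp M.measurable) mQ]
    congr 1
    funext x
    simp only [Function.comp, hM, mS_apply, hQ, hpr, Prod.swap_prod_mk, hα, hβ]
    ext
    · simp only []
      linear_combination x.1.2 * (p * q * k * h1 - p * q * c * hk - q * h3) +
        x.2 * (s * k * h2 - k * h3 + p * hk)
    · rfl
    · simp only []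
      linear_combination -x.1.1.1 * h3 + x.1.2 * (k * hcc + c * hk)
  have k3 : klDiv ω' (gr.prod g) = klDiv ω.fst (g.prod gr) := by
    have h := kl_map_equiv ω.fst (g.prod gr) (MeasurableEquiv.prodComm (α := ℝ) (β := ℝ × E))
    have h' : (g.prod gr).map (MeasurableEquiv.prodComm (α := ℝ) (β := ℝ × E)) = gr.prod g :=
      Measure.prod_swap
    rw [h'] at h
    rw [f2]
    exact h
  have f3 : ω'.fst = LS q p (LS c s ν) := by
    rw [f2, Measure.fst_map_swap, f1, Measure.snd, Measure.map_map measurable_snd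
      (rS E p q h2).measurable, ← LS_neg q p (LS c s ν), LS.eq_1 q (-p) (LS c s ν)]
    congr 1
    funext x
    simp only [Function.comp, rS_apply]
    ext
    · simp only []
      ring
    · rfl
  have c2 := kl_fst ω' gr g
  -- data processing
  have d1 : klDiv ω' (ω'.fst.prod g) ≤ klDiv ω (ω.fst.prod g) := by
    have h := klDiv_map_le ω (ω.fst.prod g) mpr
    have h' : (ω.fst.prod g).map pr = ω'.fst.prod g := by
      have h'' := Measure.map_prod_map ω.fst g (measurable_snd (α := ℝ) (β := ℝ × E)) measurable_id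
      rw [Measure.map_id] at h''
      rw [f2, Measure.fst_map_swap, Measure.snd, h'']
      rfl
    rwa [h'] at h
  rw [k1, k2] at c1
  rw [k3, k2] at c2
  calc 2 * klDiv (LS c s ν) gr = klDiv (LS c s ν) gr + klDiv (LS c s ν) gr := two_mul _
    _ = klDiv (LS c s ν) gr + (klDiv ω'.fst gr + klDiv ω' (ω'.fst.prod g)) := by rw [← c2]
    _ ≤ klDiv (LS c s ν) gr + (klDiv ω'.fst gr + klDiv ω (ω.fst.prod g)) := by gcongr
    _ = (klDiv (LS c s ν) gr + klDiv ω (ω.fst.prod g)) + klDiv ω'.fst gr := by ring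
    _ = klDiv ν gr + klDiv (LS q p (LS c s ν)) gr := by rw [← c1, f3]

/-- the divergence of `(√l V + √(1-l) Z, S)` from `N(0,1) ⊗ ρ` -/
noncomputable def phiS (ν : Measure (ℝ × E)) (ρ : Measure E) (l : ℝ) : ℝ≥0∞ :=
  klDiv (LS (Real.sqrt l) (Real.sqrt (1 - l)) ν) ((G 1).prod ρ)

theorem kl_prod_leftS (P : Measure ℝ) (V ρ : Measure E) [IsProbabilityMeasure P]
    [IsProbabilityMeasure V] [IsProbabilityMeasure ρ] :
    klDiv (P.prod V) (P.prod ρ) = klDiv V ρ := by
  have h2 := kl_map_equiv (V.prod P) (ρ.prod P) (MeasurableEquiv.prodComm (α := E) (β := ℝ))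
  have h3 : ∀ Q : Measure E, IsProbabilityMeasure Q →
      (Q.prod P).map (MeasurableEquiv.prodComm (α := E) (β := ℝ)) = P.prod Q := by
    intro Q hQ
    exact Measure.prod_swap
  rw [h3 V inferInstance, h3 ρ inferInstance, kl_prod_right] at h2
  exact h2

theorem phiS_zero (ν : Measure (ℝ × E)) [IsProbabilityMeasure ν] (ρ : Measure E)
    [IsProbabilityMeasure ρ] : phiS ν ρ 0 = klDiv ν.snd ρ := by
  have h : LS (Real.sqrt 0) (Real.sqrt (1 - 0)) ν = (G 1).prod ν.snd := by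
    have h' : ν.snd.prod (G 1) = (ν.prod (G 1)).map (Prod.map Prod.snd id) := by
      have := Measure.map_prod_map ν (G 1) (measurable_snd (α := ℝ) (β := E)) measurable_id
      rw [Measure.map_id] at this
      exact this
    unfold LS
    simp only [Real.sqrt_zero, sub_zero, Real.sqrt_one, zero_mul, one_mul, zero_add]
    rw [show (G 1).prod ν.snd = (ν.snd.prod (G 1)).map Prod.swap from Measure.prod_swap.symm, h',
      Measure.map_map measurable_swap (by fun_prop)]
    rfl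
  unfold phiS
  rw [h, kl_prod_leftS]

theorem phiS_one (ν : Measure (ℝ × E)) [IsProbabilityMeasure ν] (ρ : Measure E) :
    phiS ν ρ 1 = klDiv ν ((G 1).prod ρ) := by
  have h : LS (Real.sqrt 1) (Real.sqrt (1 - 1)) ν = ν := by
    unfold LS
    simp only [Real.sqrt_one, sub_self, Real.sqrt_zero, zero_mul, one_mul, add_zero, Prod.mk.eta]
    rw [Measure.map_fst_prod]
    simp
  unfold phiS
  rw [h]

/-- **Midpoint convexity with side information.** -/
theorem phiS_mid (ν : Measure (ℝ × E)) [IsProbabilityMeasure ν] (ρ : Measure E)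
    [IsProbabilityMeasure ρ] {x y : ℝ} (hx : 0 ≤ x) (hxy : x ≤ y)
    (hy : y ≤ 1) : 2 * phiS ν ρ ((x + y) / 2) ≤ phiS ν ρ x + phiS ν ρ y := by
  rcases (hx.trans hxy).eq_or_lt with hy0 | hy0
  · have hx0 : x = 0 := le_antisymm (hxy.trans hy0.symm.le) hx
    rw [hx0, ← hy0]
    norm_num
    rw [two_mul]
  set r : ℝ := x / y with hr
  have hry : r * y = x := div_mul_cancel₀ x hy0.ne'
  have hr0 : 0 ≤ r := div_nonneg hx hy0.le
  have hr1 : r ≤ 1 := (div_le_one hy0).2 hxy
  have hc2 : 0 < (1 + r) / 2 := by linarith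
  set c : ℝ := Real.sqrt ((1 + r) / 2) with hc
  set s : ℝ := Real.sqrt ((1 - r) / 2) with hs
  have cc : c ^ 2 = (1 + r) / 2 := Real.sq_sqrt hc2.le
  have ss : s ^ 2 = (1 - r) / 2 := Real.sq_sqrt (by linarith)
  have hcpos : 0 < c := Real.sqrt_pos.2 hc2
  set p : ℝ := s / c with hp
  set q : ℝ := Real.sqrt r / c with hq
  have h3 : p * c = s := div_mul_cancel₀ s hcpos.ne'
  have h4 : q * c = Real.sqrt r := div_mul_cancel₀ _ hcpos.ne'
  have rr : Real.sqrt r ^ 2 = r := Real.sq_sqrt hr0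
  have h1 : c ^ 2 + s ^ 2 = 1 := by rw [cc, ss]; ring
  have h2 : p ^ 2 + q ^ 2 = 1 := by
    have h5 : (p ^ 2 + q ^ 2) * c ^ 2 = c ^ 2 := by
      calc (p ^ 2 + q ^ 2) * c ^ 2 = (p * c) ^ 2 + (q * c) ^ 2 := by ring
        _ = c ^ 2 := by rw [h3, h4, rr, ss, cc]; ring
    have h6 : c ^ 2 ≠ 0 := by positivity
    exact mul_right_cancel₀ h6 (h5.trans (one_mul _).symm)
  have yy : Real.sqrt y ^ 2 = y := Real.sq_sqrt hy0.le
  have yy' : Real.sqrt (1 - y) ^ 2 = 1 - y := Real.sq_sqrt (by linarith)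
  have h := threeS c s p q h1 h2 h3 hcpos.ne' (LS (Real.sqrt y) (Real.sqrt (1 - y)) ν) ρ
  have hm : (x + y) / 2 = c ^ 2 * y := by
    rw [cc, ← hry]
    ring
  have e1 : c * Real.sqrt y = Real.sqrt ((x + y) / 2) := by
    rw [hm, Real.sqrt_mul (by positivity), Real.sqrt_sq hcpos.le]
  have mm' : Real.sqrt (1 - (x + y) / 2) ^ 2 = 1 - (x + y) / 2 := Real.sq_sqrt (by linarith)
  have e2 : LS c s (LS (Real.sqrt y) (Real.sqrt (1 - y)) ν) =
      LS (Real.sqrt ((x + y) / 2)) (Real.sqrt (1 - (x + y) / 2)) ν := by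
    rw [LS_LS c s (Real.sqrt y) (Real.sqrt (1 - y)) (Real.sqrt (1 - (x + y) / 2)) ?_, e1]
    rw [mul_pow, yy', mm', hm, ss, cc]
    ring
  have e3 : q * Real.sqrt ((x + y) / 2) = Real.sqrt x := by
    rw [← e1, ← mul_assoc, h4, ← Real.sqrt_mul hr0, hry]
  have xx : Real.sqrt (1 - x) ^ 2 = 1 - x := Real.sq_sqrt (by linarith)
  have e4 : LS q p (LS (Real.sqrt ((x + y) / 2)) (Real.sqrt (1 - (x + y) / 2)) ν) =
      LS (Real.sqrt x) (Real.sqrt (1 - x)) ν := by
    rw [LS_LS q p (Real.sqrt ((x + y) / 2)) (Real.sqrt (1 - (x + y) / 2)) (Real.sqrt (1 - x)) ?_,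
      e3]
    rw [mul_pow, mm', xx]
    have h7 : q ^ 2 * c ^ 2 = r := by rw [← mul_pow, h4, rr]
    calc q ^ 2 * (1 - (x + y) / 2) + p ^ 2 = (p ^ 2 + q ^ 2) - q ^ 2 * c ^ 2 * y := by
          rw [hm]; ring
      _ = 1 - x := by rw [h2, h7, hry]
  rw [e2, e4] at h
  unfold phiS
  rw [add_comm (klDiv (LS (Real.sqrt x) (Real.sqrt (1 - x)) ν) ((G 1).prod ρ))]
  exact h

/-- dyadic convexity, integer form -/
theorem phiS_dyadic (ν : Measure (ℝ × E)) [IsProbabilityMeasure ν] (ρ : Measure E)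
    [IsProbabilityMeasure ρ] (n : ℕ) : ∀ k m : ℕ, k + m = 2 ^ n →
    2 ^ n * phiS ν ρ (k / 2 ^ n) ≤ k * klDiv ν ((G 1).prod ρ) + m * klDiv ν.snd ρ := by
  induction n with
  | zero =>
    intro k m hk
    have : (k = 0 ∧ m = 1) ∨ (k = 1 ∧ m = 0) := by
      rw [pow_zero] at hk
      omega
    rcases this with ⟨rfl, rfl⟩ | ⟨rfl, rfl⟩
    · simp [phiS_zero]
    · simp [phiS_one]
  | succ n ih =>
    intro k m hk
    have h2 : (0 : ℝ) < 2 ^ n := by positivity
    rcases Nat.even_or_odd' k with ⟨j, rfl | rfl⟩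
    · obtain ⟨i, rfl⟩ : ∃ i, m = 2 * i := ⟨m / 2, by rw [pow_succ] at hk; omega⟩
      have hj : j + i = 2 ^ n := by rw [pow_succ] at hk; omega
      have e : ((2 * j : ℕ) : ℝ) / 2 ^ (n + 1) = j / 2 ^ n := by
        push_cast
        rw [pow_succ]
        field_simp
      rw [e]
      calc 2 ^ (n + 1) * phiS ν ρ (j / 2 ^ n) = 2 * (2 ^ n * phiS ν ρ (j / 2 ^ n)) := by ring
        _ ≤ 2 * (j * klDiv ν ((G 1).prod ρ) + i * klDiv ν.snd ρ) :=
            mul_le_mul' le_rfl (ih j i hj)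
        _ = ((2 * j : ℕ) : ℝ≥0∞) * klDiv ν ((G 1).prod ρ) +
            ((2 * i : ℕ) : ℝ≥0∞) * klDiv ν.snd ρ := by push_cast; ring
    · obtain ⟨i, rfl⟩ : ∃ i, m = 2 * i + 1 := ⟨m / 2, by rw [pow_succ] at hk; omega⟩
      have hj : j + 1 + i = 2 ^ n := by rw [pow_succ] at hk; omega
      have e : ((2 * j + 1 : ℕ) : ℝ) / 2 ^ (n + 1) =
          ((j : ℝ) / 2 ^ n + ((j + 1 : ℕ) : ℝ) / 2 ^ n) / 2 := by
        push_cast
        rw [pow_succ]
        field_simp
        ring
      have hm := phiS_mid ν ρ (x := (j : ℝ) / 2 ^ n) (y := ((j + 1 : ℕ) : ℝ) / 2 ^ n)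
        (by positivity) (by gcongr; simp)
        (by rw [div_le_one h2]; exact_mod_cast (Nat.le_add_right _ i).trans hj.le)
      rw [e]
      calc 2 ^ (n + 1) * phiS ν ρ (((j : ℝ) / 2 ^ n + ((j + 1 : ℕ) : ℝ) / 2 ^ n) / 2)
          = 2 ^ n * (2 * phiS ν ρ (((j : ℝ) / 2 ^ n + ((j + 1 : ℕ) : ℝ) / 2 ^ n) / 2)) := by ring
        _ ≤ 2 ^ n * (phiS ν ρ ((j : ℝ) / 2 ^ n) + phiS ν ρ (((j + 1 : ℕ) : ℝ) / 2 ^ n)) :=
            mul_le_mul' le_rfl hm
        _ = 2 ^ n * phiS ν ρ ((j : ℝ) / 2 ^ n) + 2 ^ n * phiS ν ρ (((j + 1 : ℕ) : ℝ) / 2 ^ n) := by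
            ring
        _ ≤ (j * klDiv ν ((G 1).prod ρ) + (i + 1 : ℕ) * klDiv ν.snd ρ) +
            ((j + 1 : ℕ) * klDiv ν ((G 1).prod ρ) + i * klDiv ν.snd ρ) :=
            add_le_add (ih j (i + 1) (by omega)) (ih (j + 1) i hj)
        _ = ((2 * j + 1 : ℕ) : ℝ≥0∞) * klDiv ν ((G 1).prod ρ) +
            ((2 * i + 1 : ℕ) : ℝ≥0∞) * klDiv ν.snd ρ := by push_cast; ring

/-- **Convexity of the divergence along the Gaussian channel, with side information**, in terms of
measures only: `2^n D((√l V + √(1-l) Z, S) ‖ N(0,1) ⊗ ρ) ≤ k D((V,S) ‖ N(0,1) ⊗ ρ) + m D(S ‖ ρ)` for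
`l = k / 2^n` and `k + m = 2^n`. -/
theorem sdpiS (ν : Measure (ℝ × E)) [IsProbabilityMeasure ν] (ρ : Measure E)
    [IsProbabilityMeasure ρ] (n k m : ℕ) (hk : k + m = 2 ^ n) :
    2 ^ n * klDiv ((ν.prod (G 1)).map fun p : (ℝ × E) × ℝ =>
      (Real.sqrt (k / 2 ^ n) * p.1.1 + Real.sqrt (1 - k / 2 ^ n) * p.2, p.1.2)) ((G 1).prod ρ) ≤
      k * klDiv ν ((G 1).prod ρ) + m * klDiv ν.snd ρ :=
  phiS_dyadic ν ρ n k m hk

/-- **Convexity of the divergence along the Gaussian channel, with side information**, the side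
information in the first coordinate: for `l = k / 2^n`
`D((S, √l V + √(1-l) Z) ‖ ρ ⊗ N(0,1)) ≤ l D((S,V) ‖ ρ ⊗ N(0,1)) + (1-l) D(S ‖ ρ)`. -/
theorem si (ω : Measure (E × ℝ)) [IsProbabilityMeasure ω] (ρ : Measure E)
    [IsProbabilityMeasure ρ] (k n : ℕ) (hk : k ≤ 2 ^ n) :
    klDiv ((ω.prod (G 1)).map fun p : (E × ℝ) × ℝ =>
      (p.1.1, Real.sqrt (k / 2 ^ n) * p.1.2 + Real.sqrt (1 - k / 2 ^ n) * p.2)) (ρ.prod (G 1)) ≤
      ENNReal.ofReal (k / 2 ^ n) * klDiv ω (ρ.prod (G 1)) +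
        ENNReal.ofReal (1 - k / 2 ^ n) * klDiv ω.fst ρ := by
  set l : ℝ := (k : ℝ) / 2 ^ n with hl
  set ν : Measure (ℝ × E) := ω.map Prod.swap with hν
  have iν : IsProbabilityMeasure ν := Measure.isProbabilityMeasure_map measurable_swap.aemeasurable
  have hs : ∀ P : Measure (E × ℝ), IsProbabilityMeasure P →
      klDiv (P.map Prod.swap) ((G 1).prod ρ) = klDiv P (ρ.prod (G 1)) := by
    intro P hP
    have h := kl_map_equiv P (ρ.prod (G 1)) (MeasurableEquiv.prodComm (α := E) (β := ℝ))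
    have h' : (ρ.prod (G 1)).map (MeasurableEquiv.prodComm (α := E) (β := ℝ)) = (G 1).prod ρ :=
      Measure.prod_swap
    rw [h'] at h
    exact h
  have h := phiS_dyadic ν ρ n k (2 ^ n - k) (by omega)
  have e1 : ν.snd = ω.fst := Measure.snd_map_swap
  have e2 : phiS ν ρ l = klDiv ((ω.prod (G 1)).map fun p : (E × ℝ) × ℝ =>
      (p.1.1, Real.sqrt l * p.1.2 + Real.sqrt (1 - l) * p.2)) (ρ.prod (G 1)) := by
    have ip : IsProbabilityMeasure ((ω.prod (G 1)).map fun p : (E × ℝ) × ℝ =>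
      (p.1.1, Real.sqrt l * p.1.2 + Real.sqrt (1 - l) * p.2)) :=
      Measure.isProbabilityMeasure_map (by fun_prop)
    rw [← hs _ ip]
    unfold phiS LS
    congr 1
    have h1 : ν.prod (G 1) = (ω.prod (G 1)).map (Prod.map Prod.swap id) := by
      have := Measure.map_prod_map ω (G 1) (measurable_swap (α := E) (β := ℝ)) measurable_id
      rw [Measure.map_id] at this
      exact this
    rw [h1, Measure.map_map (by fun_prop) (measurable_swap.prodMap measurable_id),
      Measure.map_map measurable_swap (by fun_prop)]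
    rfl
  rw [e1, hs ω inferInstance, ← hl, e2] at h
  have h0 : (2 : ℝ≥0∞) ^ n ≠ 0 := by positivity
  have ht : (2 : ℝ≥0∞) ^ n ≠ ∞ := by finiteness
  have h2 : (0 : ℝ) < 2 ^ n := by positivity
  have f1 : (2 : ℝ≥0∞) ^ n * ENNReal.ofReal l = k := by
    rw [hl, ENNReal.ofReal_div_of_pos h2, ENNReal.ofReal_natCast,
      ENNReal.ofReal_pow (by norm_num), ENNReal.ofReal_ofNat, ENNReal.mul_div_cancel h0 ht]
  have f2 : (2 : ℝ≥0∞) ^ n * ENNReal.ofReal (1 - l) = ((2 ^ n - k : ℕ) : ℝ≥0∞) := by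
    have : 1 - l = ((2 ^ n - k : ℕ) : ℝ) / 2 ^ n := by
      rw [Nat.cast_sub hk, hl]
      push_cast
      field_simp
    rw [this, ENNReal.ofReal_div_of_pos h2, ENNReal.ofReal_natCast,
      ENNReal.ofReal_pow (by norm_num), ENNReal.ofReal_ofNat, ENNReal.mul_div_cancel h0 ht]
  rw [← ENNReal.mul_le_mul_iff_right h0 ht, mul_add, ← mul_assoc, ← mul_assoc, f1, f2]
  exact h

end Pool.Agent.Lib.MP_ec2ab1_pr_h63
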